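import Pool.Agent.W251.EX.Defs2
import Pool.Agent.W935.EX.Finx

/-! Project EX part 2, part FINY: from windows to all pairs, at almost all scales. -/

set_option autoImplicit false

namespace Pool.Agent.W692.EX

open Finset Filter
open Pool.Agent.H376R2.MR
open Pool.Agent.W78.GA
open Pool.Agent.W78.EC
open Pool.Agent.W681.EC (sum_inv_le sum_inv_sq_le mem_SP)
open Pool.Agent.W935.EX (AR AA_eq AG_re AG_im)

open scoped Classical in
/-- the number of pairs outside of the window -/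
theorem card3 (C : ℝ) (hC : ∀ m M : ℕ, 1 ≤ m → m ≤ M →
    ((((Icc 1 m) ×ˢ (Icc 1 M)).filter (fun p => ∃ n : ℕ, p.1 * p.2 = n ^ 2 + 1)).card : ℝ) ≤
    C * Real.sqrt (m * M)) (hC0 : 0 ≤ C) (t : ℝ) (ht0 : 0 < t) (ht1 : t ≤ 1) (X : ℕ)
    (hX : 1 ≤ X) :
    (((SP X).filter (fun p => ¬ (t ^ 2 * X < p.1 ∧ t ^ 2 * X < p.2))).card : ℝ) ≤
      2 * C * t * X := by
  have hXp : (0 : ℝ) < X := by exact_mod_cast hX
  have hθ0 : 0 < t ^ 2 := by positivity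
  have hθ1 : t ^ 2 ≤ 1 := pow_le_one₀ ht0.le ht1
  set m := ⌊t ^ 2 * X⌋₊ with hm
  have hle : (m : ℝ) ≤ t ^ 2 * X := Nat.floor_le (by positivity)
  have hcase : ∀ p ∈ (SP X).filter (fun p => ¬ (t ^ 2 * X < p.1 ∧ t ^ 2 * X < p.2)),
      p.1 ≤ m ∨ p.2 ≤ m := by
    intro p hp
    rw [mem_filter, not_and_or, not_lt, not_lt] at hp
    rcases hp.2 with h | h
    · left; exact Nat.le_floor h
    · right; exact Nat.le_floor h
  by_cases hm0 : 1 ≤ m
  · have hmX : m ≤ X := by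
      have : (m : ℝ) ≤ X := le_trans hle (by nlinarith)
      exact_mod_cast this
    have h := hC m X hm0 hmX
    set A := ((Icc 1 m) ×ˢ (Icc 1 X)).filter (fun p : ℕ × ℕ => ∃ n : ℕ, p.1 * p.2 = n ^ 2 + 1)
      with hA
    have h1 : (SP X).filter (fun p => ¬ (t ^ 2 * X < p.1 ∧ t ^ 2 * X < p.2)) ⊆
        A ∪ A.image Prod.swap := by
      intro p hp
      have h9 := hcase p hp
      rw [mem_filter, mem_SP] at hp
      obtain ⟨⟨⟨⟨h1, h2⟩, ⟨h3, h4⟩⟩, h5⟩, h6⟩ := hp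
      rw [mem_union]
      rcases h9 with h9 | h9
      · left
        rw [hA, mem_filter, mem_product, mem_Icc, mem_Icc]
        exact ⟨⟨⟨h1, h9⟩, ⟨h3, h4⟩⟩, h5⟩
      · right
        rw [mem_image]
        refine ⟨(p.2, p.1), ?_, rfl⟩
        rw [hA, mem_filter, mem_product, mem_Icc, mem_Icc]
        refine ⟨⟨⟨h3, h9⟩, ⟨h1, h2⟩⟩, ?_⟩
        obtain ⟨n, hn⟩ := h5
        exact ⟨n, by rw [← hn]; ring⟩
    have h2 : (((SP X).filter (fun p => ¬ (t ^ 2 * X < p.1 ∧ t ^ 2 * X < p.2))).card : ℝ) ≤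
        (A.card : ℝ) + A.card := by
      have h3 := card_le_card h1
      have h4 := card_union_le A (A.image Prod.swap)
      have h5 : (A.image Prod.swap).card ≤ A.card := card_image_le
      have : ((SP X).filter (fun p => ¬ (t ^ 2 * X < p.1 ∧ t ^ 2 * X < p.2))).card ≤
        A.card + A.card := by omega
      exact_mod_cast this
    have h3 : Real.sqrt (m * X) ≤ t * X := by
      have : (m : ℝ) * X ≤ (t * X) * (t * X) := by nlinarith
      calc Real.sqrt (m * X) ≤ Real.sqrt ((t * X) * (t * X)) := Real.sqrt_le_sqrt this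
        _ = t * X := Real.sqrt_mul_self (by positivity)
    have h4 : C * Real.sqrt (m * X) ≤ C * (t * X) :=
      mul_le_mul_of_nonneg_left h3 hC0
    calc _ ≤ (A.card : ℝ) + A.card := h2
      _ ≤ C * (t * X) + C * (t * X) := by linarith
      _ = _ := by ring
  · have h1 : (SP X).filter (fun p => ¬ (t ^ 2 * X < p.1 ∧ t ^ 2 * X < p.2)) = ∅ := by
      rw [Finset.eq_empty_iff_forall_notMem]
      intro p hp
      have h9 := hcase p hp
      rw [mem_filter, mem_SP] at hp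
      obtain ⟨⟨⟨⟨h1, h2⟩, ⟨h3, h4⟩⟩, h5⟩, h6⟩ := hp
      omega
    rw [h1, card_empty, Nat.cast_zero]
    positivity

open scoped Classical in
theorem AG_eq (h2 : S_CORR) (F : ℕ → ℕ → ℂ) (s : ℝ) (X : ℕ) (hX : 1 ≤ X) :
    Pool.Agent.W251.EX.AG (fun e => F (nm e.1) (nm e.2)) s 1 s 1 X =
      4 * ∑ p ∈ (SP X).filter (fun p => p ≠ (1, 1)),
      if s * X < p.1 ∧ s * X < p.2 then F p.1 p.2 else 0 := by
  apply Complex.ext
  · rw [AG_re, AA_eq h2 _ s X hX]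
    have e : ((4 : ℂ) * ∑ p ∈ (SP X).filter (fun p => p ≠ (1, 1)),
      if s * X < p.1 ∧ s * X < p.2 then F p.1 p.2 else 0).re =
      4 * (∑ p ∈ (SP X).filter (fun p => p ≠ (1, 1)),
      if s * X < p.1 ∧ s * X < p.2 then F p.1 p.2 else 0).re := by
      have := Complex.re_ofReal_mul (4 : ℝ) (∑ p ∈ (SP X).filter (fun p => p ≠ (1, 1)),
        if s * X < p.1 ∧ s * X < p.2 then F p.1 p.2 else 0)
      exact_mod_cast this
    rw [e, Complex.re_sum]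
    congr 1
    apply sum_congr rfl
    intro p _
    split_ifs <;> simp
  · rw [AG_im, AA_eq h2 _ s X hX]
    have e : ((4 : ℂ) * ∑ p ∈ (SP X).filter (fun p => p ≠ (1, 1)),
      if s * X < p.1 ∧ s * X < p.2 then F p.1 p.2 else 0).im =
      4 * (∑ p ∈ (SP X).filter (fun p => p ≠ (1, 1)),
      if s * X < p.1 ∧ s * X < p.2 then F p.1 p.2 else 0).im := by
      have := Complex.im_ofReal_mul (4 : ℝ) (∑ p ∈ (SP X).filter (fun p => p ≠ (1, 1)),
        if s * X < p.1 ∧ s * X < p.2 then F p.1 p.2 else 0)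
      exact_mod_cast this
    rw [e, Complex.im_sum]
    congr 1
    apply sum_congr rfl
    intro p _
    split_ifs <;> simp

open scoped Classical in
theorem per_scale (h2 : S_CORR) (C : ℝ) (hC : ∀ m M : ℕ, 1 ≤ m → m ≤ M →
    ((((Icc 1 m) ×ˢ (Icc 1 M)).filter (fun p => ∃ n : ℕ, p.1 * p.2 = n ^ 2 + 1)).card : ℝ) ≤
    C * Real.sqrt (m * M)) (hC0 : 0 ≤ C) (t : ℝ) (ht0 : 0 < t) (ht1 : t ≤ 1)
    (F : ℕ → ℕ → ℂ) (hF : ∀ a b, ‖F a b‖ ≤ 1) (X : ℕ) (hX : 1 ≤ X) :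
    ‖∑ p ∈ SP X, F p.1 p.2‖ ≤ 1 + 2 * C * t * X + 1 / 4 *
      ‖Pool.Agent.W251.EX.AG (fun e => F (nm e.1) (nm e.2)) (t ^ 2) 1 (t ^ 2) 1 X‖ := by
  rw [AG_eq h2 F (t ^ 2) X hX, norm_mul]
  have e4 : ‖(4 : ℂ)‖ = 4 := by norm_num
  rw [e4]
  set R := (SP X).filter (fun p => p ≠ (1, 1)) with hR
  have e1 := Finset.sum_filter_add_sum_filter_not (SP X) (fun p : ℕ × ℕ => p ≠ (1, 1))
      (fun p : ℕ × ℕ => F p.1 p.2)
  have b1 : ‖∑ p ∈ (SP X).filter (fun p : ℕ × ℕ => ¬ (p ≠ (1, 1))), F p.1 p.2‖ ≤ 1 := by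
    have e2 : (SP X).filter (fun p : ℕ × ℕ => ¬ (p ≠ (1, 1))) ⊆ {(1, 1)} := by
      intro p hp
      rw [mem_filter, not_not] at hp
      exact mem_singleton.2 hp.2
    refine le_trans (norm_sum_le _ _) ?_
    refine le_trans (Finset.sum_le_sum_of_subset_of_nonneg e2 (fun p _ _ => norm_nonneg _)) ?_
    rw [Finset.sum_singleton]
    exact hF _ _
  have b2 : ∑ p ∈ R, F p.1 p.2 = (∑ p ∈ R, if t ^ 2 * X < p.1 ∧ t ^ 2 * X < p.2 then
      F p.1 p.2 else 0) + ∑ p ∈ R.filter (fun p => ¬ (t ^ 2 * X < p.1 ∧ t ^ 2 * X < p.2)),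
        F p.1 p.2 := by
    rw [← Finset.sum_filter]
    exact (Finset.sum_filter_add_sum_filter_not R _ _).symm
  have b3 : ‖∑ p ∈ R.filter (fun p => ¬ (t ^ 2 * X < p.1 ∧ t ^ 2 * X < p.2)),
        F p.1 p.2‖ ≤ 2 * C * t * X := by
    refine le_trans (norm_sum_le _ _) ?_
    refine le_trans (Finset.sum_le_sum (fun p _ => hF p.1 p.2)) ?_
    rw [Finset.sum_const, nsmul_eq_mul, mul_one]
    refine le_trans ?_ (card3 C hC hC0 t ht0 ht1 X hX)
    have : R.filter (fun p => ¬ (t ^ 2 * X < p.1 ∧ t ^ 2 * X < p.2)) ⊆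
        (SP X).filter (fun p => ¬ (t ^ 2 * X < p.1 ∧ t ^ 2 * X < p.2)) := by
      intro p hp
      rw [mem_filter] at hp ⊢
      exact ⟨(mem_filter.1 hp.1).1, hp.2⟩
    exact_mod_cast card_le_card this
  rw [← e1, ← hR, b2]
  refine le_trans (norm_add_le _ _) ?_
  refine le_trans (add_le_add (norm_add_le _ _) b1) ?_
  linarith

theorem finy (h2 : S_CORR) (h3 : S_SCNT) : Pool.Agent.W251.EX.S_FINY := by
  intro F hF hyp ε hε
  obtain ⟨C, hC⟩ := h3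
  have hC0 : 0 ≤ C := by
    have h := hC 1 1 le_rfl le_rfl
    have h4 : (0 : ℝ) ≤ C * Real.sqrt ((1 : ℕ) * (1 : ℕ)) := le_trans (Nat.cast_nonneg _) h
    simpa using h4
  set t : ℝ := min (1 / 2) (ε / (8 * (C + 1))) with ht
  have ht0 : 0 < t := lt_min (by norm_num) (by positivity)
  have hlt : t < 1 := lt_of_le_of_lt (min_le_left _ _) (by norm_num)
  have ht1 : t ≤ 1 := hlt.le
  have ht2 : 2 * C * t ≤ ε / 4 := by
    have h5 : t ≤ ε / (8 * (C + 1)) := min_le_right _ _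
    rw [le_div_iff₀ (by positivity)] at h5
    nlinarith
  obtain ⟨N₀, hN₀⟩ := hyp (t ^ 2) (by positivity) (pow_lt_one₀ ht0.le hlt (by norm_num)) ε hε
  have hlim : Tendsto (fun N : ℕ => Real.log N) atTop atTop :=
    Real.tendsto_log_atTop.comp tendsto_natCast_atTop_atTop
  obtain ⟨N₁, hN₁⟩ := (hlim.eventually_gt_atTop
    ((2 + 2 * C * t) * 4 / ε)).exists_forall_of_atTop
  refine ⟨max (max N₀ N₁) 2, fun N hN => ?_⟩
  have g1 : N₀ ≤ N := le_trans (le_trans (le_max_left _ _) (le_max_left _ _)) hN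
  have g2 : N₁ ≤ N := le_trans (le_trans (le_max_right _ _) (le_max_left _ _)) hN
  have g3 : 2 ≤ N := le_trans (le_max_right _ _) hN
  have g4 := hN₁ N g2
  have g5 := hN₀ N g1
  have hl : 0 < Real.log N := Real.log_pos (by exact_mod_cast g3)
  rw [div_lt_iff₀ hε] at g4
  have k1 : ∑ X ∈ Icc 1 N, 1 / (X : ℝ) ^ 2 * ‖∑ p ∈ SP X, F p.1 p.2‖ ≤
      ∑ X ∈ Icc 1 N, 1 / (X : ℝ) ^ 2 * (1 + 2 * C * t * X + 1 / 4 *
      ‖Pool.Agent.W251.EX.AG (fun e => F (nm e.1) (nm e.2)) (t ^ 2) 1 (t ^ 2) 1 X‖) := by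
    apply Finset.sum_le_sum
    intro X hX
    exact mul_le_mul_of_nonneg_left (per_scale h2 C hC hC0 t ht0 ht1 F hF X (mem_Icc.1 hX).1)
      (by positivity)
  have k2 : ∑ X ∈ Icc 1 N, 1 / (X : ℝ) ^ 2 * (1 + 2 * C * t * X + 1 / 4 *
      ‖Pool.Agent.W251.EX.AG (fun e => F (nm e.1) (nm e.2)) (t ^ 2) 1 (t ^ 2) 1 X‖) =
      ∑ X ∈ Icc 1 N, 1 / (X : ℝ) ^ 2 + 2 * C * t * ∑ X ∈ Icc 1 N, 1 / (X : ℝ) +
      1 / 4 * ∑ X ∈ Icc 1 N, 1 / (X : ℝ) ^ 2 *
      ‖Pool.Agent.W251.EX.AG (fun e => F (nm e.1) (nm e.2)) (t ^ 2) 1 (t ^ 2) 1 X‖ := by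
    rw [Finset.mul_sum, Finset.mul_sum, ← Finset.sum_add_distrib, ← Finset.sum_add_distrib]
    apply Finset.sum_congr rfl
    intro X hX
    have hX0 : (X : ℝ) ≠ 0 := by
      have := (mem_Icc.1 hX).1
      positivity
    field_simp
  have k3 := sum_inv_sq_le N
  have k4 : 2 * C * t * ∑ X ∈ Icc 1 N, 1 / (X : ℝ) ≤ 2 * C * t * (1 + Real.log N) :=
    mul_le_mul_of_nonneg_left (sum_inv_le N) (by positivity)
  have k5 : 2 * C * t * Real.log N ≤ ε / 4 * Real.log N :=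
    mul_le_mul_of_nonneg_right ht2 hl.le
  nlinarith

end Pool.Agent.W692.EX
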